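import Pool.Agent.NDR.StmtsR

/-!
# Squad NDR, row DSC (helper15): descent of a relation to the subfield
-/

set_option autoImplicit false

namespace Pool.Agent.NDR.H15

open Finset Pool.Agent.NDR

theorem dsc : DscStmt := by
  classical
  intro τ k K _ _ _ A c I m₀ β h hrel
  have hinj : LinearMap.ker (Algebra.linearMap k K) = ⊥ := by
    rw [LinearMap.ker_eq_bot]
    exact (algebraMap k K).injective
  obtain ⟨π, hπ⟩ := LinearMap.exists_leftInverse_of_injective (Algebra.linearMap k K) hinj
  have hπ1 : ∀ r : k, π (algebraMap k K r) = r := fun r => LinearMap.congr_fun hπ r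
  have hπ2 : ∀ (r : k) (x : K), π (algebraMap k K r * x) = r * π x := by
    intro r x
    rw [← Algebra.smul_def, map_smul, smul_eq_mul]
  have hπ3 : ∀ (r : k) (n : ℤ) (x : K), π (algebraMap k K r * ((n : ℤ) : K) * x)
      = r * ((n : ℤ) : k) * π x := by
    intro r n x
    have e : algebraMap k K r * ((n : ℤ) : K) = algebraMap k K (r * ((n : ℤ) : k)) := by
      rw [map_mul, map_intCast]
    rw [e, hπ2]
  have hπ4 : ∀ (n : ℤ) (x : K), π ((((n : ℤ) : K) + 0) * x) = (((n : ℤ) : k) + 0) * π x := by
    intro n x
    have e : ((n : ℤ) : K) + 0 = algebraMap k K (((n : ℤ) : k) + 0) := by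
      rw [add_zero, add_zero, map_intCast]
    rw [e, hπ2]
  refine ⟨fun v => (h v).mapRange π (map_zero π), ?_, ?_⟩
  · ext e
    have h1 := congrArg (fun F => π (F e)) hrel
    simp only [Finsupp.finsetSum_apply, map_sum, opB_apply, map_add, Pi.zero_apply] at h1
    have h2 : π (Finsupp.single m₀ (algebraMap k K β) e) = Finsupp.single m₀ β e := by
      rw [Finsupp.single_apply, Finsupp.single_apply]
      split_ifs
      · exact hπ1 β
      · exact map_zero π
    rw [h2] at h1
    rw [h1, Finsupp.finsetSum_apply]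
    refine Finset.sum_congr rfl fun v _ => ?_
    rw [opB_apply, Pi.zero_apply, hπ4, Finsupp.mapRange_apply]
    congr 1
    refine Finset.sum_congr rfl fun a _ => ?_
    rw [hπ3, Finsupp.mapRange_apply]
  · intro v
    exact Finsupp.support_mapRange

end Pool.Agent.NDR.H15
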