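import Pool.Agent.NDR.StmtsP

/-!
# Squad NDR, row MWE (helper15): Minkowski - Weyl with integer functionals
-/

set_option autoImplicit false

namespace Pool.Agent.NDR.H15

open Finset Pool.Agent.NDR

/-- elimination of one variable -/
theorem elim {α : Type} (K : Type) [Field K] [LinearOrder K] [IsStrictOrderedRing K]
    (Ψ : Finset α) (f g : α → K) :
    (∃ s : K, 0 ≤ s ∧ ∀ ψ ∈ Ψ, s * f ψ ≤ g ψ) ↔
      (∀ ψ ∈ Ψ, 0 ≤ f ψ → 0 ≤ g ψ) ∧
      (∀ ψ ∈ Ψ, ∀ ψ' ∈ Ψ, 0 < f ψ → f ψ' < 0 → 0 ≤ f ψ * g ψ' - f ψ' * g ψ) := by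
  classical
  constructor
  · rintro ⟨s, hs, h⟩
    refine ⟨fun ψ hψ h0 => (mul_nonneg hs h0).trans (h ψ hψ), ?_⟩
    intro ψ hψ ψ' hψ' h1 h2
    have e1 := mul_le_mul_of_nonneg_left (h ψ' hψ') h1.le
    have e2 := mul_le_mul_of_nonneg_left (h ψ hψ) (neg_nonneg.2 h2.le)
    have e3 : f ψ * (s * f ψ') + -f ψ' * (s * f ψ) = 0 := by ring
    linarith
  · rintro ⟨h1, h2⟩
    rcases (Ψ.filter (fun ψ => f ψ < 0)).eq_empty_or_nonempty with hN | hN
    · refine ⟨0, le_rfl, fun ψ hψ => ?_⟩
      have h3 : 0 ≤ f ψ := by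
        by_contra hn
        have : ψ ∈ Ψ.filter (fun ψ => f ψ < 0) := Finset.mem_filter.2 ⟨hψ, not_le.1 hn⟩
        rw [hN] at this
        exact absurd this (Finset.notMem_empty _)
      rw [zero_mul]
      exact h1 ψ hψ h3
    · obtain ⟨ψ0, h0, hmax⟩ := Finset.exists_max_image _ (fun ψ => g ψ / f ψ) hN
      obtain ⟨h0Ψ, h0n⟩ := Finset.mem_filter.1 h0
      refine ⟨max 0 (g ψ0 / f ψ0), le_max_left _ _, fun ψ hψ => ?_⟩
      rcases lt_trichotomy (f ψ) 0 with hf | hf | hf
      · have e1 : g ψ / f ψ ≤ max 0 (g ψ0 / f ψ0) :=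
          (hmax ψ (Finset.mem_filter.2 ⟨hψ, hf⟩)).trans (le_max_right _ _)
        have e2 := mul_le_mul_of_nonpos_right e1 hf.le
        rwa [div_mul_cancel₀ _ hf.ne] at e2
      · rw [hf, mul_zero]
        exact h1 ψ hψ hf.ge
      · rcases le_total (g ψ0 / f ψ0) 0 with hc | hc
        · rw [max_eq_left hc, zero_mul]
          exact h1 ψ hψ hf.le
        · rw [max_eq_right hc]
          have e1 := h2 ψ hψ ψ0 h0Ψ hf h0n
          have e2 : g ψ0 / f ψ0 * f ψ - g ψ = (f ψ * g ψ0 - f ψ0 * g ψ) / f ψ0 := by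
            have := h0n.ne
            field_simp
          have e3 : (f ψ * g ψ0 - f ψ0 * g ψ) / f ψ0 ≤ 0 := div_nonpos_of_nonneg_of_nonpos e1 h0n.le
          linarith

/-- value of an integer functional -/
def val {ι : Type} [Fintype ι] (K : Type) [Field K] (q : ι → K) (ψ : ι → ℤ) : K :=
  ∑ i, ((ψ i : ℤ) : K) * q i

theorem val_comb {ι : Type} [Fintype ι] (K : Type) [Field K] (q : ι → K) (ψ ψ' : ι → ℤ) (m n : ℤ) :
    val K q (fun i => m * ψ' i - n * ψ i) = (m : K) * val K q ψ' - (n : K) * val K q ψ := by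
  unfold val
  rw [Finset.mul_sum, Finset.mul_sum, ← Finset.sum_sub_distrib]
  refine Finset.sum_congr rfl fun i _ => ?_
  push_cast
  ring

theorem val_single {ι : Type} [Fintype ι] [DecidableEq ι] (K : Type) [Field K] (q : ι → K) (i : ι)
    (m : ℤ) : val K q (fun j => if j = i then m else 0) = (m : K) * q i := by
  unfold val
  rw [Finset.sum_eq_single i]
  · simp only [if_true]
  · intro j _ hj
    simp only [if_neg hj, Int.cast_zero, zero_mul]
  · intro h
    exact absurd (Finset.mem_univ i) h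

theorem mwe : MweStmt := by
  classical
  intro ι _ I A
  induction A using Finset.induction_on with
  | empty =>
    refine ⟨I.image (fun i => fun j => if j = i then (1 : ℤ) else 0) ∪
      I.image (fun i => fun j => if j = i then (-1 : ℤ) else 0), ?_, ?_⟩
    · intro ψ hψ j hj
      rcases Finset.mem_union.1 hψ with h | h
      · obtain ⟨i, hi, rfl⟩ := Finset.mem_image.1 h
        have : j ≠ i := by
          rintro rfl
          exact hj hi
        exact if_neg this
      · obtain ⟨i, hi, rfl⟩ := Finset.mem_image.1 h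
        have : j ≠ i := by
          rintro rfl
          exact hj hi
        exact if_neg this
    · intro K _ _ _ q
      constructor
      · rintro ⟨l, _, hl⟩ ψ hψ
        have h0 : ∀ i ∈ I, q i = 0 := by
          intro i hi
          rw [hl i hi, Finset.sum_empty]
        rcases Finset.mem_union.1 hψ with h | h
        · obtain ⟨i, hi, rfl⟩ := Finset.mem_image.1 h
          have e := val_single K q i 1
          unfold val at e
          rw [e, h0 i hi, mul_zero]
        · obtain ⟨i, hi, rfl⟩ := Finset.mem_image.1 h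
          have e := val_single K q i (-1)
          unfold val at e
          rw [e, h0 i hi, mul_zero]
      · intro h
        refine ⟨fun _ => 0, fun _ => le_rfl, fun i hi => ?_⟩
        rw [Finset.sum_empty]
        have h1 := h _ (Finset.mem_union_left _ (Finset.mem_image_of_mem _ hi))
        have h2 := h _ (Finset.mem_union_right _ (Finset.mem_image_of_mem _ hi))
        have e1 := val_single K q i 1
        have e2 := val_single K q i (-1)
        unfold val at e1 e2
        rw [e1] at h1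
        rw [e2] at h2
        push_cast at h1 h2
        linarith
  | insert a A haA ih =>
    obtain ⟨Ψ, hI, hΨ⟩ := ih
    set pa : (ι → ℤ) → ℤ := fun ψ => ∑ i, ψ i * a i with hpa
    refine ⟨Ψ.filter (fun ψ => 0 ≤ pa ψ) ∪
      ((Ψ ×ˢ Ψ).filter (fun p => 0 < pa p.1 ∧ pa p.2 < 0)).image
        (fun p => fun i => pa p.1 * p.2 i - pa p.2 * p.1 i), ?_, ?_⟩
    · intro ψ hψ j hj
      rcases Finset.mem_union.1 hψ with h | h
      · exact hI ψ (Finset.mem_filter.1 h).1 j hj
      · obtain ⟨p, hp, rfl⟩ := Finset.mem_image.1 h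
        obtain ⟨hp1, _⟩ := Finset.mem_filter.1 hp
        obtain ⟨hp2, hp3⟩ := Finset.mem_product.1 hp1
        show pa p.1 * p.2 j - pa p.2 * p.1 j = 0
        rw [hI p.1 hp2 j hj, hI p.2 hp3 j hj]
        ring
    · intro K _ _ _ q
      -- cone of insert a A
      have hcone : (∃ l : (ι → ℤ) → K, (∀ b, 0 ≤ l b) ∧
          ∀ i ∈ I, q i = ∑ b ∈ insert a A, l b * ((b i : ℤ) : K)) ↔
          ∃ s : K, 0 ≤ s ∧ ∃ l : (ι → ℤ) → K, (∀ b, 0 ≤ l b) ∧
            ∀ i ∈ I, q i - s * ((a i : ℤ) : K) = ∑ b ∈ A, l b * ((b i : ℤ) : K) := by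
        constructor
        · rintro ⟨l, hl, h⟩
          refine ⟨l a, hl a, l, hl, fun i hi => ?_⟩
          rw [h i hi, Finset.sum_insert haA]
          ring
        · rintro ⟨s, hs, l, hl, h⟩
          refine ⟨Function.update l a s, fun b => ?_, fun i hi => ?_⟩
          · by_cases hb : b = a
            · rw [hb, Function.update_self]
              exact hs
            · rw [Function.update_of_ne hb]
              exact hl b
          · rw [Finset.sum_insert haA, Function.update_self]
            have e : ∑ b ∈ A, Function.update l a s b * ((b i : ℤ) : K)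
                = ∑ b ∈ A, l b * ((b i : ℤ) : K) := by
              refine Finset.sum_congr rfl fun b hb => ?_
              have hba : b ≠ a := by
                rintro rfl
                exact haA hb
              rw [Function.update_of_ne hba]
            rw [e, ← h i hi]
            ring
      have hcast : ∀ ψ : ι → ℤ, ((pa ψ : ℤ) : K) = ∑ i, ((ψ i : ℤ) : K) * ((a i : ℤ) : K) := by
        intro ψ
        rw [hpa]
        push_cast
        rfl
      have hstep : (∃ s : K, 0 ≤ s ∧ ∃ l : (ι → ℤ) → K, (∀ b, 0 ≤ l b) ∧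
            ∀ i ∈ I, q i - s * ((a i : ℤ) : K) = ∑ b ∈ A, l b * ((b i : ℤ) : K)) ↔
          ∃ s : K, 0 ≤ s ∧ ∀ ψ ∈ Ψ, s * ((pa ψ : ℤ) : K) ≤ val K q ψ := by
        refine exists_congr fun s => and_congr_right fun hs => ?_
        have h := hΨ K (fun i => q i - s * ((a i : ℤ) : K))
        rw [h]
        refine forall₂_congr fun ψ _ => ?_
        have e : ∑ i, ((ψ i : ℤ) : K) * (q i - s * ((a i : ℤ) : K))
            = val K q ψ - s * ((pa ψ : ℤ) : K) := by
          rw [hcast ψ]
          unfold val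
          rw [Finset.mul_sum, ← Finset.sum_sub_distrib]
          refine Finset.sum_congr rfl fun i _ => ?_
          ring
        rw [e, sub_nonneg]
      rw [hcone, hstep, elim K Ψ (fun ψ => ((pa ψ : ℤ) : K)) (fun ψ => val K q ψ)]
      constructor
      · rintro ⟨h1, h2⟩ ψ hψ
        rcases Finset.mem_union.1 hψ with h | h
        · obtain ⟨h3, h4⟩ := Finset.mem_filter.1 h
          exact h1 ψ h3 (Int.cast_nonneg h4)
        · obtain ⟨p, hp, rfl⟩ := Finset.mem_image.1 h
          obtain ⟨hp1, hp4, hp5⟩ := Finset.mem_filter.1 hp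
          obtain ⟨hp2, hp3⟩ := Finset.mem_product.1 hp1
          have e := val_comb K q p.1 p.2 (pa p.1) (pa p.2)
          have h3 := h2 p.1 hp2 p.2 hp3 (Int.cast_pos.2 hp4) (Int.cast_lt_zero.2 hp5)
          rw [← e] at h3
          exact h3
      · intro h
        refine ⟨fun ψ hψ h0 => ?_, fun ψ hψ ψ' hψ' h1 h2 => ?_⟩
        · exact h ψ (Finset.mem_union_left _ (Finset.mem_filter.2 ⟨hψ, Int.cast_nonneg_iff.1 h0⟩))
        · have h3 := h (fun i => pa ψ * ψ' i - pa ψ' * ψ i) (Finset.mem_union_right _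
            (Finset.mem_image.2 ⟨(ψ, ψ'), Finset.mem_filter.2 ⟨Finset.mem_product.2 ⟨hψ, hψ'⟩,
              Int.cast_pos.1 h1, Int.cast_lt_zero.1 h2⟩, rfl⟩))
          have e := val_comb K q ψ ψ' (pa ψ) (pa ψ')
          rw [← e]
          exact h3

end Pool.Agent.NDR.H15
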